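import Mathlib

/-!
A completely multiplicative function with values in {1, -1} (the regular paperfolding sequence:
f 2 = 1 and f n = the nontrivial character mod 4 at odd n) has all correlated sums
along homogeneous progressions bounded by 1. So Q1 fails, already for a = b.
-/

namespace Pool.Agent.Results.MP_4efd57_nt.Q1False

open Finset

/-- the paperfolding sequence, with integer values -/
def pf (n : ℕ) : ℤ := ZMod.χ₄ ((n / 2 ^ n.factorization 2 : ℕ) : ZMod 4)

lemma pf_mul (m n : ℕ) : pf (m * n) = pf m * pf n := by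
  unfold pf
  rw [Nat.ordCompl_mul, Nat.cast_mul, map_mul]

lemma pf_odd (n : ℕ) (hn : n % 2 = 1) : pf n = ZMod.χ₄ (n : ZMod 4) := by
  unfold pf
  have : n.factorization 2 = 0 := Nat.factorization_eq_zero_of_not_dvd (by omega)
  simp [this]

lemma pf_val (n : ℕ) (hn : 1 ≤ n) : pf n = 1 ∨ pf n = -1 := by
  unfold pf
  have h : ¬ 2 ∣ n / 2 ^ n.factorization 2 := Nat.not_dvd_ordCompl Nat.prime_two (by omega)
  set m := n / 2 ^ n.factorization 2
  have : m % 4 = 1 ∨ m % 4 = 3 := by omega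
  rcases this with h1 | h3
  · left; exact ZMod.χ₄_nat_one_mod_four h1
  · right; exact ZMod.χ₄_nat_three_mod_four h3

lemma pf_cancel (j : ℕ) : pf (2 * j + 1) + pf (2 * j + 3) = 0 := by
  rw [pf_odd _ (by omega), pf_odd _ (by omega)]
  have : (2 * j + 1) % 4 = 1 ∨ (2 * j + 1) % 4 = 3 := by omega
  rcases this with h | h
  · rw [ZMod.χ₄_nat_one_mod_four h, ZMod.χ₄_nat_three_mod_four (by omega)]; rfl
  · rw [ZMod.χ₄_nat_three_mod_four h, ZMod.χ₄_nat_one_mod_four (by omega)]; rfl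

lemma sum_even (j : ℕ) : ∑ k ∈ Icc 1 (2 * j), pf k * pf (k + 1) = 0 := by
  induction j with
  | zero => simp
  | succ j ih =>
    rw [show 2 * (j + 1) = 2 * j + 1 + 1 by ring, Finset.sum_Icc_succ_top (by omega),
      Finset.sum_Icc_succ_top (by omega), ih]
    have := pf_cancel j
    rw [show 2 * j + 1 + 1 + 1 = 2 * j + 3 by ring]
    linear_combination pf (2 * j + 1 + 1) * this

lemma sum_bound (n : ℕ) : |∑ k ∈ Icc 1 n, pf k * pf (k + 1)| ≤ 1 := by
  rcases Nat.even_or_odd' n with ⟨j, rfl | rfl⟩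
  · rw [sum_even]; simp
  · rw [Finset.sum_Icc_succ_top (by omega), sum_even]
    rcases pf_val (2 * j + 1) (by omega) with h | h <;>
      rcases pf_val (2 * j + 1 + 1) (by omega) with h' | h' <;> simp [h, h']

theorem result :
    ∃ f : ℕ → ℂ,
      (∀ n : ℕ, 1 ≤ n → ‖f n‖ = 1) ∧
      (∀ n : ℕ, 1 ≤ n → f n = 1 ∨ f n = -1) ∧
      (∀ m n : ℕ, 1 ≤ m → 1 ≤ n → f (m * n) = f m * f n) ∧
      ∀ d n : ℕ, 1 ≤ d → 1 ≤ n →
        ‖∑ k ∈ Finset.Icc 1 n, f (k * d) * f (k * d + d)‖ ≤ 1 := by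
  refine ⟨fun n => (pf n : ℂ), ?_, ?_, ?_, ?_⟩
  · intro n hn
    rcases pf_val n hn with h | h <;> simp [h]
  · intro n hn
    rcases pf_val n hn with h | h <;> simp [h]
  · intro m n _ _
    simp [pf_mul]
  · intro d n hd _
    have hd2 : pf d * pf d = 1 := by
      rcases pf_val d hd with h | h <;> simp [h]
    have : ∑ k ∈ Finset.Icc 1 n, (pf (k * d) : ℂ) * (pf (k * d + d) : ℂ)
        = ((∑ k ∈ Icc 1 n, pf k * pf (k + 1) : ℤ) : ℂ) := by
      push_cast
      refine Finset.sum_congr rfl fun k _ => ?_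
      rw [show k * d + d = (k + 1) * d by ring, pf_mul, pf_mul]
      have h2 : (pf d : ℂ) * (pf d : ℂ) = 1 := by exact_mod_cast hd2
      push_cast
      linear_combination (pf k : ℂ) * (pf (k + 1) : ℂ) * h2
    simp only
    rw [this, Complex.norm_intCast]
    exact_mod_cast sum_bound n

end Pool.Agent.Results.MP_4efd57_nt.Q1False
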