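import Pool.Agent.MP_4efd57_nt.Mg.Main

/-!
For irrational `α` and arbitrary unimodular functions `a 0, …, a (l-1)` and shifts `h j`, the sums
`∑_{1 ≤ k ≤ n} e(k² α) ∏_j a_j (k d + h_j d)` are unbounded, already when `d` runs over the primes
above any bound. Q2 is the case `l = 2`, `h = (0, 1)` (see the corollary `q2`).
-/

namespace Pool.Agent.Results.MP_4efd57_nt.Q2True

open Finset

theorem result (α : ℝ) (hα : Irrational α) (l : ℕ) (a : Fin l → ℕ → ℂ)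
    (ha : ∀ j n, 1 ≤ n → ‖a j n‖ = 1) (h : Fin l → ℕ) (C : ℝ) (D : ℕ) :
    ∃ d n : ℕ, d.Prime ∧ D < d ∧ 1 ≤ n ∧
      C < ‖∑ k ∈ Icc 1 n, Complex.exp (2 * Real.pi * Complex.I * ((k : ℂ) ^ 2 * α)) *
        ∏ j, a j (k * d + h j * d)‖ := by
  by_contra hc
  push Not at hc
  refine Pool.Agent.MP_4efd57_nt.unbounded hα ha h D C fun d hd hD n hn => ?_
  simpa [Pool.Agent.MP_4efd57_nt.ee] using hc d n hd hD hn

/-- the literal form of Q2 -/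
theorem q2 (α : ℝ) (hα : Irrational α) (a b : ℕ → ℂ) (ha : ∀ n, 1 ≤ n → ‖a n‖ = 1)
    (hb : ∀ n, 1 ≤ n → ‖b n‖ = 1) (C : ℝ) :
    ∃ d n : ℕ, 1 ≤ d ∧ 1 ≤ n ∧
      C < ‖∑ k ∈ Icc 1 n, Complex.exp (2 * Real.pi * Complex.I * ((k : ℂ) ^ 2 * α)) *
        a (k * d) * b (k * d + d)‖ := by
  obtain ⟨d, n, h1, -, h2, h3⟩ := result α hα 2 ![a, b]
    (fun j => by fin_cases j; exacts [ha, hb]) ![0, 1] C 0
  exact ⟨d, n, h1.pos, h2, by simpa [Fin.prod_univ_two, mul_assoc] using h3⟩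

end Pool.Agent.Results.MP_4efd57_nt.Q2True
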